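import Pool.Agent.Q36.PF.Fm
import Pool.Agent.TH466.QT.Den

/-!
# Potential density for rationally connected varieties dominated by varieties with maps to products

Let `Z` be a projective variety over an algebraically closed field of characteristic zero, and let
`Z ⇢ V 1 × ... × V s` be a dominant rational map (its fibres are arbitrary) to a product of projective
manifolds. Let each `V j` be a manifold whose canonical forms separate `m j ≥ 1` points in an open
set: `m j` different general points impose independent conditions on `H⁰(V j, K)`; or a curve of
gonality greater than `m j`. (For `m j = 1` the condition is `p_g(V j) > 0`.) Let `Z ⇢ X` be any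
dominant rational map of finite degree to a variety `X`; it need not be a quotient by a group. For a
general point `x` of `X` let `r_j` be the number of different images in `V j` of the points over `x`,
and for a set `T` of indices let `a(T)` be the number of the points over `x` which have the same image
in the product of the `V j`, `j ∈ T`, as a given one of them. Assume that

* `r_j ≤ m j` for all `j` in some set `B` (which may be empty), and
* `a(Q^c) ≤ (1 + ∑ j ∈ Q, (m j - 1)) a({1, ..., s})` for all `Q` disjoint from `B`.

Assume that `Z` is unirational, or that the `V j` are not all points. For instance, let `Z` be a product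
of varieties each of which is unirational or one of the `V j`.

The theorem: if `X` is rationally connected, or only has no nonzero tensor differentials, then `X` and
all varieties dominated by `Z` are unirational and potentially dense: for every projective model, the
points with coordinates in some finitely generated field (a number field, if `k` is the field of
algebraic numbers) are Zariski-dense.

Proof: the exterior products of the canonical forms of the `V j` are forms of degree `p = ∑ dim V j` on
`Z`, and their traces are regular `p`-forms on `X`. If all these traces vanish, there is a linear
relation between the products of the values of the canonical forms of the `V j` at the points of a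
general fibre; Hall's theorem on the marriage problem and the separation property isolate one image
point in the product. It is also proved that rationally connected varieties have no tensor
differentials: the pull-backs of a tensor differential of `X` under the two evaluation maps of a
family of rational curves on `X` agree.
-/

set_option autoImplicit false
set_option linter.overlappingInstances false

open FF IntermediateField Pool.Agent.W619.PQ Pool.Agent.W619.TW
open Pool.Agent.TH466.QT (PotentiallyDense)

namespace Pool.Agent.Results.MP_b62148_ag.DominatedByProducts

/-- Every nonconstant function on the curve with function field `F` has degree at least `γ`. -/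
def GonalityGe (k F : Type) [Field k] [Field F] [Algebra k F] (γ : ℕ) : Prop :=
  ∀ b : F, Transcendental k b → γ ≤ Module.finrank k⟮b⟯ F

/-- The coefficients of the canonical forms of the projective manifold of dimension `d` with function
field `K`, with respect to the rational vector fields `E`. -/
def canonicalForms (k : Type) {K : Type} [Field k] [Field K] [Algebra k K] (d : ℕ)
    (E : Fin d → Derivation k K K) : Set K :=
  {f | ∃ η : (Fin d → Derivation k K K) → K, IsPluriForm k K d 1 η ∧
    (∀ u : Place k K, IsDivisorial u d → RegularAt u d η) ∧ η E = f}

/-- The canonical forms of the manifold with function field `K` separate `m` points in an open set: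
the values of the canonical forms at at most `m` different generic points `φ i`, with coordinates in a
field `Ω`, are linearly independent. (For the coefficients with respect to a frame `E`; this does not
depend on the choice of the frame.) -/
def SeparatesPoints (k K : Type) [Field k] [Field K] [Algebra k K] (d m : ℕ) : Prop :=
  ∀ (y : Fin d → K) (E : Fin d → Derivation k K K), IsTranscendenceBasis k y →
    (∀ i j, E i (y j) = if i = j then 1 else 0) →
    ∀ (Ω : Type) [Field Ω] [Algebra k Ω] (ι : Type) [Fintype ι] (φ : ι → (K →ₐ[k] Ω))
      (c : ι → Ω), Function.Injective φ → Fintype.card ι ≤ m →
      (∀ f ∈ canonicalForms k d E, ∑ i, c i * φ i f = 0) → ∀ i, c i = 0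

/-- `u₁` and `u₂` are the two substitutions of parameters `t₁`, `t₂` for `t`, from `V(t)` to
`V(t₁)(t₂)`. -/
def AreSubstitutions {k V : Type} [Field k] [Field V] [Algebra k V]
    (u₁ u₂ : RatFunc V →ₐ[k] RatFunc (RatFunc V)) : Prop :=
  (∀ f, u₁ f = RatFunc.C f) ∧ (∀ a, u₂ (RatFunc.C a) = RatFunc.C (RatFunc.C a)) ∧
    u₂ RatFunc.X = RatFunc.X

/-- The fields `φ (K)` and `ψ (K)` generate a field of transcendence degree `r`. -/
def JointDimension {k K S : Type} [Field k] [Field K] [Field S] [Algebra k K] [Algebra k S]
    (φ ψ : K →ₐ[k] S) (r : ℕ) : Prop :=
  Algebra.trdeg k (φ.fieldRange ⊔ ψ.fieldRange : IntermediateField k S) = r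

/-- The varieties of dimension `n` with function field `K` are rationally connected: there is a
family of rational curves on them, parametrised by a variety with function field `V`, such that two
general points are on a curve of the family. The family is given by `u`, it takes a function on the
variety to its restriction to the general curve, a function of the parameter `t` of this curve; the
field generated by the values of the functions at two points `t₁`, `t₂` of the general curve has
transcendence degree `2 n`. -/
def IsRationallyConnected (k K : Type) [Field k] [Field K] [Algebra k K] (n : ℕ) : Prop :=
  ∃ (V : Type) (_ : Field V) (_ : Algebra k V) (q : ℕ), Algebra.EssFiniteType k V ∧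
    Algebra.trdeg k V = q ∧ ∃ (u : K →ₐ[k] RatFunc V)
      (u₁ u₂ : RatFunc V →ₐ[k] RatFunc (RatFunc V)),
      AreSubstitutions u₁ u₂ ∧ JointDimension (u₁.comp u) (u₂.comp u) (n + n)

section

variable {k : Type} (L : Type) {M : Type} [Field k] [Field L] [Field M] [Algebra k L]
  [Algebra k M] [Algebra L M]

/-- The number of the different images in the variety with function field `F` of the points of a
general fibre of `Z ⇢ X`. -/
noncomputable def coordinates (F : IntermediateField k M) : ℕ :=
  Module.finrank L (IntermediateField.adjoin L (F : Set M))

/-- The number of the points of a general fibre of `Z ⇢ X` with the same images in the varieties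
`V j`, `j ∈ T`, as a given one. -/
noncomputable def agreeing {s : ℕ} (V : Fin s → IntermediateField k M) (T : Finset (Fin s)) : ℕ :=
  Module.finrank (IntermediateField.adjoin L {z : M | ∃ j, j ∈ T ∧ z ∈ V j}) M

end

/-- **Potential density of rationally connected varieties dominated by varieties with maps to
products.** Let `M` be the function field of a projective variety `Z` of dimension `n`, `V j`, `j < s`,
the function fields of projective manifolds of dimensions `d j` with a dominant rational map from `Z`
to their product, whose canonical forms separate `m j ≥ 1` points, or which are curves of gonality
greater than `m j`. Let `L` be the function field of a variety `X` with a dominant rational map of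
finite degree from `Z` to `X`. Let `B` be a set of indices such that the number of the images in `V j`
of the points of a general fibre is at most `m j` for `j ∈ B`, and assume that for every set `Q` of
indices disjoint from `B` the number of the points of a general fibre with the same images in all
`V j`, `j ∉ Q`, as a given one is at most `1 + ∑ j ∈ Q, (m j - 1)` times the number of those with the
same images in all the `V j`. Let `Z` be unirational or let some `d j` be positive. If `X` is
rationally connected, or has no nonzero tensor differentials, then `Z` and `X` are unirational, and
every projective variety with generic point `x` and function field `E`, contained in the function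
field of `Z` (for example `E = L`), is potentially dense. -/
theorem result {k L M : Type} [Field k] [CharZero k] [IsAlgClosed k] [Field L] [Field M]
    [Algebra k L] [Algebra k M] [Algebra L M] [IsScalarTower k L M] [FiniteDimensional L M]
    [Algebra.EssFiniteType k M] (n : ℕ) (hM : Algebra.trdeg k M = n) (s : ℕ) (d : Fin s → ℕ)
    (V : Fin s → IntermediateField k M) (hess : ∀ i, Algebra.EssFiniteType k (V i))
    (hd : ∀ i, Algebra.trdeg k (V i) = d i)
    (hV : Algebra.trdeg k (⨆ i, V i : IntermediateField k M) = (∑ i, d i : ℕ))
    (m : Fin s → ℕ) (hm : ∀ i, 1 ≤ m i)
    (hsep : ∀ i, SeparatesPoints k (V i) (d i) (m i) ∨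
      (IsFF k (V i) ∧ GonalityGe k (V i) (m i + 1)))
    (B : Finset (Fin s)) (hB : ∀ i ∈ B, coordinates L (V i) ≤ m i)
    (hQ : ∀ Q : Finset (Fin s), Disjoint Q B →
      agreeing L V Qᶜ ≤ (1 + ∑ j ∈ Q, (m j - 1)) * agreeing L V Finset.univ)
    (hZ : IsUnirational k M n ∨ 0 < ∑ i, d i)
    (hX : IsRationallyConnected k L n ∨ TensorVanish k L n) :
    IsUnirational k M n ∧ IsUnirational k L n ∧
      ∀ (E : IntermediateField k M) (N : ℕ) (x : Fin (N + 1) → E), x ≠ 0 →
        PotentiallyDense k x := by
  have hrc : IsRationallyConnected k L n → Q36.PF.RatConn k L n := by
    rintro ⟨V, i1, i2, q, h1, h2, u, u₁, u₂, ⟨h3, h4, h5⟩, h6⟩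
    exact ⟨V, i1, i2, q, h1, h2, u, u₁, u₂, h3, h4, h5, h6⟩
  have main := Q36.PF.main_form (L := L) V hM hd hV hm hsep B hB fun Q hQB => ?_
  · have h1 := main.2 hZ (by
      rcases hX with h | h
      · exact Or.inr (hrc h)
      · exact Or.inl h)
    exact ⟨h1.1, h1.2, fun E N x hx => Pool.Agent.TH466.QT.dense_of_unirational
      (Q36.PF.unirational_sub (K := E) h1.1) hx⟩
  · have h1 := hQ Q hQB
    unfold agreeing at h1
    have h2 : {z : M | ∃ j, j ∈ Qᶜ ∧ z ∈ V j} = {z : M | ∃ j, j ∉ Q ∧ z ∈ V j} := by
      ext z
      simp
    have h3 : {z : M | ∃ j, j ∈ (Finset.univ : Finset (Fin s)) ∧ z ∈ V j} =
        {z : M | ∃ j, z ∈ V j} := by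
      ext z
      simp
    rw [h2, h3] at h1
    exact h1

end Pool.Agent.Results.MP_b62148_ag.DominatedByProducts
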