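import Pool.Agent.Q33.UR.Desc

/-!
MP_b62148_ag: a variety over a number field with a nondegenerate complex curve given by linear
differential equations has potentially dense rational points.
-/

set_option autoImplicit false

namespace Pool.Agent.Results.MP_b62148_ag.LinearCurvesDensity

open MvPolynomial Set Pool.Agent.TH143 Pool.Agent.TH143.GT Pool.Agent.Q33.UR
open Pool.Agent.W602.GT (IsForm)
open Pool.Agent.Q33.OD (LinSys polyB)

/-- Let `k` be a subfield of the complex numbers (for instance, a number field), and `X` the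
projective variety over `k` given by the forms `F i`.

Let `Ω` be a domain in the complex plane, `B` a ring of holomorphic functions on `Ω` which contains
the constants and is closed under `d / dz`. `LinSys r Ω B f`: on `Ω` the curve `f` is `M u` where
`s u' = A u`, with matrices `A`, `M` over `B`, `0 ≠ s ∈ B`, and `u` a vector of length at most `r`.
`IndepOver Ω B g`: the functions `g` satisfy no nontrivial homogeneous algebraic relation with
coefficients in `B`. `IsPt L F x`: `x` are homogeneous coordinates of a point in `X (L)`.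

(1) Let `f : Ω → X (ℂ)` be such a curve, and suppose that `e` ratios `f (j 1) / f (j 0), …,
f (j e) / f (j 0)` of its coordinates are algebraically independent over `B`. Then there is a finite
extension `L` of `k` such that the coordinates `j 0, …, j e` of the points in `X (L)` satisfy no
nontrivial homogeneous relation: the Zariski closure of `X (L)` has dimension at least `e`.

(2) Let `X (ℂ)` be irreducible, with the homogeneous ideal `p`, the function field `K`, the dimension
`w` and the generic point `y`. The following are equivalent: (a) for some finite extension `L` of `k`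
there are polynomials over `L` with exactly the homogeneous relations of `y`, that is, a dominant
rational map over `L` from an affine space to `X`; (b) there is an entire curve in `X (ℂ)` whose
homogeneous coordinates are linear combinations of exponentials `exp (μ z)` and each homogeneous
relation of it with coefficients in `ℂ[z]` is, for each value of `z`, a relation of `X`; (c) for some
`Ω`, `B` there is a curve `f : Ω → X (ℂ)`, given by a linear system over `B`, with `dim X` ratios of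
coordinates algebraically independent over `B`. In this case `X (L)` is Zariski-dense in `X` for some
finite extension `L` of `k`. -/
theorem result {k : Type} [Field k] [Algebra k ℂ] {N : ℕ} {ι : Type}
    (F : ι → MvPolynomial (Fin (N + 1)) k) (hF : ∀ i, ∃ d, (F i).IsHomogeneous d) :
    -- (1)
    (∀ (Ω : Set ℂ) (B : Subalgebra ℂ (ℂ → ℂ)) (r e : ℕ) (f : ℂ → Fin (N + 1) → ℂ)
      (j : Fin (e + 1) → Fin (N + 1)), IsOpen Ω → IsPreconnected Ω → Ω.Nonempty → DiffRing Ω B →
      (∀ i, AnalyticOnNhd ℂ (fun z => f z i) Ω) → (∀ z ∈ Ω, ∀ i, aeval (f z) (F i) = 0) →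
      LinSys r Ω B f → IndepOver Ω B (fun z l => f z (j l)) →
      ∃ L : IntermediateField k ℂ, FiniteDimensional k L ∧
        ∀ (d : ℕ) (P : MvPolynomial (Fin (e + 1)) ℂ), P.IsHomogeneous d →
          (∀ x, IsPt L F x → eval (fun l => x (j l)) P = 0) → P = 0) ∧
    -- (2)
    (∀ (p : Ideal (MvPolynomial (Fin (N + 1)) ℂ)), p.IsPrime →
      (∀ H, H ∈ p ↔ ∀ x, (∀ i, aeval x (F i) = 0) → eval x H = 0) →
      ∀ (K : Type) [Field K] [Algebra ℂ K] (w : ℕ) (y : Fin (N + 1) → K), FunField p 1 K w y →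
      [ -- (a)
        ∃ L : IntermediateField k ℂ, FiniteDimensional k L ∧ ∃ (m : ℕ)
          (W : Fin (N + 1) → MvPolynomial (Fin m) L), ∀ H : MvPolynomial (Fin (N + 1)) ℂ,
            IsForm H → (aeval y H = 0 ↔ aeval (fun i => map (algebraMap L ℂ) (W i)) H = 0),
        -- (b)
        ∃ (r : ℕ) (f : ℂ → Fin (N + 1) → ℂ), ExpSum r f ∧ (∀ z i, aeval (f z) (F i) = 0) ∧
          NonDeg univ polyB p f,
        -- (c)
        ∃ (Ω : Set ℂ) (B : Subalgebra ℂ (ℂ → ℂ)) (r : ℕ) (f : ℂ → Fin (N + 1) → ℂ),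
          IsOpen Ω ∧ IsPreconnected Ω ∧ Ω.Nonempty ∧ DiffRing Ω B ∧
          (∀ i, AnalyticOnNhd ℂ (fun z => f z i) Ω) ∧ (∀ z ∈ Ω, ∀ i, aeval (f z) (F i) = 0) ∧
          LinSys r Ω B f ∧
          ∃ j : Fin (w + 1) → Fin (N + 1), IndepOver Ω B fun z l => f z (j l)].TFAE ∧
      (∀ (Ω : Set ℂ) (B : Subalgebra ℂ (ℂ → ℂ)) (r : ℕ) (f : ℂ → Fin (N + 1) → ℂ)
        (j : Fin (w + 1) → Fin (N + 1)), IsOpen Ω → IsPreconnected Ω → Ω.Nonempty →
        DiffRing Ω B → (∀ i, AnalyticOnNhd ℂ (fun z => f z i) Ω) →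
        (∀ z ∈ Ω, ∀ i, aeval (f z) (F i) = 0) → LinSys r Ω B f →
        IndepOver Ω B (fun z l => f z (j l)) →
        ∃ L : IntermediateField k ℂ, FiniteDimensional k L ∧
          ∀ H : MvPolynomial (Fin (N + 1)) ℂ, IsForm H → H ∉ p → ∃ x, IsPt L F x ∧ eval x H ≠ 0)) := by
  have hmap : ∀ (x : Fin (N + 1) → ℂ) i, eval x (map (algebraMap k ℂ) (F i)) = aeval x (F i) :=
    fun x i => by rw [eval_map]; rfl
  refine ⟨?_, ?_⟩
  · intro Ω B r e f j hΩ hΩc hne hB hf hX hlin hind
    obtain ⟨E, hE, h⟩ := uni_gen hΩ hΩc hB f hf hlin j hind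
    obtain ⟨z, hz⟩ := exists_point hΩ hne hE
    obtain ⟨h1, h2⟩ := h z hz
    obtain ⟨L, hL, m, W, hW, -, -, -, hno⟩ := descend_cover F hF
      (fun i s hs => by rw [hmap]; exact hX s hs i) h1 h2
    refine ⟨L, hL, fun d P hP h0 => ?_⟩
    by_contra hP0
    have h3 : aeval (fun i => map (algebraMap L ℂ) (W i)) (rename j P) ≠ 0 := by
      rw [aeval_rename]
      exact fun h4 => hP0 (hno d P hP h4)
    have hj0 : W (j 0) ≠ 0 := by
      intro h4
      have h5 := hno 1 (X 0) (isHomogeneous_X _ _) (by rw [aeval_X, h4, map_zero])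
      exact X_ne_zero (R := ℂ) (0 : Fin (e + 1)) h5
    obtain ⟨x, hx, hxP⟩ := exists_pt hW hj0 h3
    apply hxP
    rw [eval_rename]
    exact h0 x hx
  · intro p hprime hp K _ _ w y hy
    have hFp : ∀ i, map (algebraMap k ℂ) (F i) ∈ p := fun i => (hp _).2 fun x hx => by
      rw [hmap]
      exact hx i
    have hFf : ∀ i, IsForm (map (algebraMap k ℂ) (F i)) := fun i => by
      obtain ⟨d, hd⟩ := hF i
      exact ⟨d, hd.map _⟩
    have hXp : ∀ {Ω : Set ℂ} {f : ℂ → Fin (N + 1) → ℂ}, (∀ z ∈ Ω, ∀ i, aeval (f z) (F i) = 0) →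
        ∀ z ∈ Ω, ∀ H ∈ p, eval (f z) H = 0 := fun h z hz H hH => (hp H).1 hH _ (h z hz)
    have key : ∀ (Ω : Set ℂ) (B : Subalgebra ℂ (ℂ → ℂ)) (r : ℕ) (f : ℂ → Fin (N + 1) → ℂ)
        (j : Fin (w + 1) → Fin (N + 1)), IsOpen Ω → IsPreconnected Ω → Ω.Nonempty →
        DiffRing Ω B → (∀ i, AnalyticOnNhd ℂ (fun z => f z i) Ω) →
        (∀ z ∈ Ω, ∀ i, aeval (f z) (F i) = 0) → LinSys r Ω B f →
        IndepOver Ω B (fun z l => f z (j l)) →
        ∃ L : IntermediateField k ℂ, FiniteDimensional k L ∧ ∃ (m : ℕ)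
          (W : Fin (N + 1) → MvPolynomial (Fin m) L), (∀ i, aeval W (F i) = 0) ∧
          ∀ H : MvPolynomial (Fin (N + 1)) ℂ,
            IsForm H → (aeval y H = 0 ↔ aeval (fun i => map (algebraMap L ℂ) (W i)) H = 0) := by
      intro Ω B r f j hΩ hΩc hne hB hf hX hlin hind
      obtain ⟨hy0, hbas⟩ := full_basis hy hne (hXp hX) hind
      obtain ⟨E, hE, h⟩ := uni_gen hΩ hΩc hB f hf hlin j hind
      obtain ⟨z, hz⟩ := exists_point hΩ hne hE
      obtain ⟨h1, h2⟩ := h z hz
      obtain ⟨L, hL, m, W, hW, -, h3, h4, -⟩ := descend_cover F hF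
        (fun i s hs => by rw [hmap]; exact hX s hs i) h1 h2
      have hrel : ∀ (d : ℕ) (H : MvPolynomial (Fin (N + 1)) ℂ), H.IsHomogeneous d →
          aeval y H = 0 → ∀ t : Fin (N + 1) → ℂ, (∀ i, aeval t (F i) = 0) → eval t H = 0 :=
        fun d H hH h0 => (hp H).1 (hy.mem H ⟨d, hH⟩ h0)
      refine ⟨L, hL, m, W, hW, fun H hH => ⟨fun h0 => ?_, fun h0 => ?_⟩⟩
      · obtain ⟨d, hd⟩ := hH
        exact h3 d H hd (hrel d H hd h0)
      · obtain ⟨d, hd⟩ := hH
        exact h4 rfl hy0 hbas hrel d H hd h0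
    refine ⟨?_, ?_⟩
    · tfae_have 1 → 2 := by
        rintro ⟨L, hL, m, W, hW⟩
        obtain ⟨r, f, h1, h2, h3⟩ := exp_of_unirational hy
          ⟨m, fun i => map (algebraMap L ℂ) (W i), hW⟩
        refine ⟨r, f, h1, fun z i => ?_, h3⟩
        rw [← hmap]
        exact h2 z _ (hFp i) (hFf i)
      tfae_have 2 → 3 := by
        rintro ⟨r, f, h1, h2, h3⟩
        refine ⟨univ, polyB, r, f, isOpen_univ, isPreconnected_univ, univ_nonempty, polyB_ring,
          fun i => (h1.diff i).differentiableOn.analyticOnNhd isOpen_univ, fun z _ => h2 z, ?_,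
          full_of_nonDeg hy h3⟩
        rcases h1.linSys (Ω := univ) (B := polyB) with h4 | h4
        · exact h4
        · exact absurd h4 (univ_nonempty (α := ℂ)).ne_empty
      tfae_have 3 → 1 := by
        rintro ⟨Ω, B, r, f, h1, h2, h3, h4, h5, h6, h7, j, hj⟩
        obtain ⟨L, hL, m, W, -, h8⟩ := key Ω B r f j h1 h2 h3 h4 h5 h6 h7 hj
        exact ⟨L, hL, m, W, h8⟩
      tfae_finish
    · intro Ω B r f j h1 h2 h3 h4 h5 h6 h7 hj
      obtain ⟨L, hL, m, W, hW, h8⟩ := key Ω B r f j h1 h2 h3 h4 h5 h6 h7 hj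
      refine ⟨L, hL, fun H hH hHp => ?_⟩
      obtain ⟨i0, hi0⟩ := Function.ne_iff.1 hy.sub.ne
      refine exists_pt hW (i0 := i0) (fun h0 => ?_) fun h0 => hHp (hy.mem H hH ((h8 H hH).2 h0))
      apply hi0
      have h9 := (h8 (X i0) ⟨1, isHomogeneous_X _ _⟩).2 (by rw [aeval_X, h0, map_zero])
      rwa [aeval_X] at h9

end Pool.Agent.Results.MP_b62148_ag.LinearCurvesDensity
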