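import Pool.Agent.Q35.VP.All

/-!
# One rational point suffices, for smooth hypersurfaces of multidegree (2, ..., 2)

Let `k` be a field of characteristic zero and let `V = {F = 0} ⊆ ℙ^{n₁} × … × ℙ^{n_r}`, where all
`n_l ≥ 2`, be a smooth hypersurface of multidegree `(2, …, 2)`. It is a Fano variety and therefore
rationally connected. For `r = 2` and `n = (2, 2)` these are the Verra threefolds, conic bundles
over `ℙ²` whose discriminant is a curve of degree six; for `n = (2, …, 2)` they are conic bundles
over `(ℙ²)^{r-1}` in `r` ways.

We show that `V` satisfies the strong form Q2 of potential density over each field `k` of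
characteristic zero, and more: if `V` has a single `k`-point, or if a single smooth `k`-point lies
on any integral scheme `X` locally of finite type over `k` which is birational to `V`, then the
`k`-points of `X` are dense and `X` is unirational over `k`; if `k` is finitely generated (for
instance a number field), then `X` has the Hilbert property. No field extension is needed, and the
point may lie in any position.

Idea of the proof. Let `x` be a `k`-point of `V`. If `x` is not special (i.e. if for no nonempty
set `S` of factors all the derivatives of `F` in the directions of `S` are proportional to `F` over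
the coordinates of `x` in `S`), then `x` moves on the conics of all the factors and the
classification of the subvarieties of `V` which are saturated for all the conics shows that the
`k`-points are dense. If `x` is special, let `S` be the largest set with this property. Then the
fibre `G` of `F` over the coordinates of `x` in `S` is a smooth hypersurface of multidegree
`(2, …, 2)` in the product of the other factors, and the `k`-points of `G` are dense by the first
case. For a suitable direction `v` in a factor `l` in `S` the form `F` becomes `s² G + t² G'` when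
the coordinates `x_l` are replaced by `s x_l + t v`. Take a general `k`-point `y` of `G` and another
factor `m`. As functions of the coordinates `Y` in the factor `m` we get quadratic forms `g` and `q`
with `g` nondegenerate and `g(y_m) = 0`, and `s² g(Y) + t² q(Y)` has a zero over `k` with `t ≠ 0`
and `Y` outside of any given finite set: this is a point which is special at most for subsets of
`S` without `l`. Since there are only finitely many special configurations, the induction works.
A regular point on a model `X` gives a point on `V` by the theorem of Lang and Nishimura.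
-/

set_option autoImplicit false

namespace Pool.Agent.Results.MP_b62148_ag.OnePointSuffices

open MvPolynomial AlgebraicGeometry CategoryTheory W560.HP

/-- The multihomogeneous coordinates of `ℙ^{n₁} × … × ℙ^{n_r}`. -/
abbrev Vars {r : ℕ} (n : Fin r → ℕ) : Type := (l : Fin r) × Fin (n l + 1)

/-- `F` is a form of degree `d l` in the coordinates of the factor `l`, for all `l`. -/
def MultiHomogeneous {r : ℕ} {n : Fin r → ℕ} (d : Fin r → ℕ) {k : Type} [Field k]
    (F : MvPolynomial (Vars n) k) : Prop :=
  ∀ m ∈ F.support, ∀ l, ∑ i, m ⟨l, i⟩ = d l

/-- The coordinates of no factor are all zero. -/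
def Proper {r : ℕ} {n : Fin r → ℕ} {k : Type} [Zero k] (z : Vars n → k) : Prop :=
  ∀ l, ∃ i, z ⟨l, i⟩ ≠ 0

/-- The hypersurface `F = 0` is smooth. -/
def Smooth {r : ℕ} {n : Fin r → ℕ} {k : Type} [Field k] (F : MvPolynomial (Vars n) k) : Prop :=
  ∀ z : Vars n → AlgebraicClosure k, Proper z → aeval z F = 0 → ∃ s, aeval z (pderiv s F) ≠ 0

/-- The integral `k`-scheme `X` is birational to the hypersurface `F = 0`: its function field is
generated over `k` by the multihomogeneous coordinates `y` of a point of `F = 0` (normalised so that
one of the coordinates of each factor is `1`) which satisfy no further multihomogeneous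
equations. -/
def BirationalTo {r : ℕ} {n : Fin r → ℕ} {k : Type} [Field k] (F : MvPolynomial (Vars n) k)
    (X : Scheme.{0}) [IsIntegral X] (p : X ⟶ Spec (CommRingCat.of k)) : Prop :=
  ∃ (K : Type) (_ : Field K) (_ : Algebra k K) (e : X.functionField ≃+* K) (y : Vars n → K),
    (∀ a : k, e (toFF k X p a) = algebraMap k K a) ∧ (∀ l, ∃ b, y ⟨l, b⟩ = 1) ∧
    IntermediateField.adjoin k (Set.range y) = ⊤ ∧ aeval y F = 0 ∧
    ∀ (d : Fin r → ℕ) (f : MvPolynomial (Vars n) k), MultiHomogeneous d f → aeval y f = 0 → F ∣ f

/-- The `k`-points of `X` are dense. -/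
def DensePoints (k : Type) [Field k] (X : Scheme.{0}) (p : X ⟶ Spec (CommRingCat.of k)) : Prop :=
  Dense {x : X | ∃ s : Spec (CommRingCat.of k) ⟶ X, s ≫ p = 𝟙 _ ∧ x ∈ Set.range s.base}

/-- The scheme `X` has a `k`-point at which it is regular. -/
def HasRegularPoint (k : Type) [Field k] (X : Scheme.{0}) (p : X ⟶ Spec (CommRingCat.of k)) :
    Prop :=
  ∃ s : Spec (CommRingCat.of k) ⟶ X, s ≫ p = 𝟙 _ ∧
    ∀ q, IsRegularLocalRing (X.presheaf.stalk (s.base q))

/-- **One rational point suffices.** -/
theorem result (k : Type) [Field k] [CharZero k] (r : ℕ) (n : Fin r → ℕ) (hn : ∀ l, 2 ≤ n l)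
    (F : MvPolynomial (Vars n) k) (hF : MultiHomogeneous (fun _ => 2) F) (hsm : Smooth F)
    (X : Scheme.{0}) [IsIntegral X] (p : X ⟶ Spec (CommRingCat.of k)) [LocallyOfFiniteType p]
    (hX : BirationalTo F X p) :
    [∃ x : Vars n → k, Proper x ∧ eval x F = 0, DensePoints k X p, UnirationalScheme k X p].TFAE ∧
    (HasRegularPoint k X p → DensePoints k X p ∧ UnirationalScheme k X p) ∧
    ((∃ S : Finset k, IntermediateField.adjoin ℚ (S : Set k) = ⊤) → DensePoints k X p →
      HilbertProperty k X p ∧
      ((∀ x : X, IsIntegrallyClosed (X.presheaf.stalk x)) → HilbertPropertyIso k X p)) := by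
  open Pool.Agent.Q35.ST in
  have hF' : MH Set.univ (fun _ => 2) F := fun m hm l _ => hF m hm l
  have hsm' : Smth (map (algebraMap k (AlgebraicClosure k)) F) := by
    intro z hz hzF
    rw [MvPolynomial.eval_map] at hzF
    obtain ⟨s, hs⟩ := hsm z (fun l => hz l (Set.mem_univ _)) hzF
    exact ⟨s, by rw [pderiv_map, MvPolynomial.eval_map]; exact hs⟩
  obtain ⟨K, iK, iA, e, y, he, h1, h2, h3, h4⟩ := hX
  have h := Pool.Agent.Q35.VP.vp_all hF' hn hsm' X p
    ⟨K, iK, iA, e, y, he, h1, h2, h3, fun d f hf => h4 d f (fun m hm l => hf m hm l trivial)⟩
  have h0 : (∃ x : Vars n → k, Proper x ∧ eval x F = 0) ↔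
      ∃ x : Pc n → k, Nz Set.univ x ∧ eval x F = 0 := by
    constructor
    · rintro ⟨x, hx, h⟩
      exact ⟨x, fun l _ => hx l, h⟩
    · rintro ⟨x, hx, h⟩
      exact ⟨x, fun l => hx l trivial, h⟩
  rw [h0]
  exact h

end Pool.Agent.Results.MP_b62148_ag.OnePointSuffices
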