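import Pool.Agent.Q40.AD.Pts

/-!
MP_b62148_ag: slow holomorphic maps from affine spaces to a variety over a number field are limits of
polynomial maps over number fields; a slow map of maximal rank forces potential density of the
rational points.
-/

set_option autoImplicit false

namespace Pool.Agent.Results.MP_b62148_ag.SlowMapsDensity

open MvPolynomial Filter Topology Pool.Agent.Q64.LC Pool.Agent.Q40.SM Pool.Agent.Q40.AD
  Pool.Agent.TH143.GT Pool.Agent.Q33.UR
open Pool.Agent.W602.GT (IsForm)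

/-- Let `k` be a countable subfield of the complex numbers (for instance, a number field). There is a
nondecreasing function `Ψ`, growing faster than all polynomials, with the following properties, for
all systems `F` of polynomials over `k` in `n + 1` variables, for all `n`. A holomorphic map
`f : ℂ ^ d → ℂ ^ (n + 1)` is slow if `‖f z‖ ≤ C Ψ ‖z‖` for large `‖z‖`.

(1) Let `X = {F = 0}` be the affine algebraic set. Every slow map `f : ℂ ^ d → X (ℂ)` is a limit of
polynomial maps from affine space to `X` over finite extensions of `k`: for all large `M` there is a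
polynomial map `W : ℂ ^ d → X` with coefficients in a finite extension `L` of `k`, of degree at most
`M` in each coordinate, whose distance to `f` on the ball of radius `M` is at most `3 / (M + 1)`.

Let the `F i` be forms, and `X` the projective algebraic set over `k`. `IsPt L F x`: `x` are
homogeneous coordinates in `L` of a point in `X (L)`. `RankAt f j z`: at the point `z` the functions
`f (j 1) / f (j 0), …, f (j e) / f (j 0)` have independent differentials.

(2) Let `f : ℂ ^ d → X (ℂ)` be slow with `RankAt f j z`. For every `δ > 0` there is a finite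
extension `L` of `k` such that the coordinates `j 0, …, j e` of the points in `X (L)` at distance at
most `δ` from `f z` satisfy no nontrivial homogeneous relation: the Zariski closure of this set has
dimension at least `e`.

(3) Let `X (ℂ)` be irreducible, with the homogeneous ideal `p`, the function field `K`, the dimension
`w` and the generic point `y`. If a slow map `f : ℂ ^ d → X (ℂ)` has the rank `w` at the point `z`,
then for every `δ > 0` there is a finite extension `L` of `k` such that the points in `X (L)` at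
distance at most `δ` from `f z` are Zariski-dense in `X`. -/
theorem result (k : Subfield ℂ) [Countable k] :
    ∃ Ψ : ℝ → ℝ, SuperPoly Ψ ∧ Monotone Ψ ∧ ∀ (n : ℕ) (ι : Type)
      (F : ι → MvPolynomial (Fin (n + 1)) k),
    -- (1)
    (∀ (d : ℕ) (f : (Fin d → ℂ) → Fin (n + 1) → ℂ), Differentiable ℂ f →
      (∀ z i, aeval (f z) (F i) = 0) → Slow Ψ f →
      ∃ M₀ : ℕ, ∀ M : ℕ, M₀ ≤ M → ∃ L : IntermediateField k ℂ, FiniteDimensional k L ∧
        ∃ W : Fin (n + 1) → MvPolynomial (Fin d) L, (∀ i, aeval W (F i) = 0) ∧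
          (∀ j l, degreeOf l (W j) ≤ M) ∧
          ∀ z, ‖z‖ ≤ M → ‖f z - pmap (cmap W) z‖ ≤ 3 / ((M : ℝ) + 1)) ∧
    ((∀ i, ∃ d, (F i).IsHomogeneous d) →
    -- (2)
    (∀ (d e : ℕ) (f : (Fin d → ℂ) → Fin (n + 1) → ℂ) (j : Fin (e + 1) → Fin (n + 1))
      (z : Fin d → ℂ), Differentiable ℂ f → (∀ t i, aeval (f t) (F i) = 0) → Slow Ψ f →
      RankAt f j z → ∀ δ > 0, ∃ L : IntermediateField k ℂ, FiniteDimensional k L ∧
        ∀ (m : ℕ) (P : MvPolynomial (Fin (e + 1)) ℂ), P.IsHomogeneous m → P ≠ 0 →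
          ∃ x, IsPt L F x ∧ ‖x - f z‖ ≤ δ ∧ eval (fun l => x (j l)) P ≠ 0) ∧
    -- (3)
    (∀ (p : Ideal (MvPolynomial (Fin (n + 1)) ℂ)), p.IsPrime →
      (∀ H, H ∈ p ↔ ∀ x, (∀ i, aeval x (F i) = 0) → eval x H = 0) →
      ∀ (K : Type) [Field K] [Algebra ℂ K] (w : ℕ) (y : Fin (n + 1) → K), FunField p 1 K w y →
      ∀ (d : ℕ) (f : (Fin d → ℂ) → Fin (n + 1) → ℂ) (j : Fin (w + 1) → Fin (n + 1))
        (z : Fin d → ℂ), Differentiable ℂ f → (∀ t i, aeval (f t) (F i) = 0) → Slow Ψ f →
        RankAt f j z → ∀ δ > 0, ∃ L : IntermediateField k ℂ, FiniteDimensional k L ∧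
          ∀ H, IsForm H → H ∉ p → ∃ x, IsPt L F x ∧ ‖x - f z‖ ≤ δ ∧ eval x H ≠ 0)) := by
  classical
  obtain ⟨Ψ, hΨ, hmon, hone, hcore⟩ := core_fin k
  refine ⟨Ψ, hΨ, hmon, fun n ι F => ?_⟩
  have hap := hcore n ι F
  have hmap : ∀ (x : Fin (n + 1) → ℂ) i, eval x (map k.subtype (F i)) = aeval x (F i) :=
    fun x i => by rw [eval_map]; rfl
  have key : ∀ (d e : ℕ) (f : (Fin d → ℂ) → Fin (n + 1) → ℂ) (j : Fin (e + 1) → Fin (n + 1))
      (z : Fin d → ℂ), Differentiable ℂ f → (∀ t i, aeval (f t) (F i) = 0) → Slow Ψ f →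
      RankAt f j z → ∀ δ > 0, ∃ L : IntermediateField k ℂ, FiniteDimensional k L ∧
        ∃ W : Fin (n + 1) → MvPolynomial (Fin e) L, (∀ i, aeval W (F i) = 0) ∧
          ‖pmap (cmap W) 0 - f z‖ ≤ δ ∧ eval 0 (cmap W (j 0)) ≠ 0 ∧ (jm (cmap W) j).det ≠ 0 := by
    intro d e f j z hf hX hslow hr δ hδ
    obtain ⟨W, ⟨L, hL, W', hWW, hW'⟩, h2, h3, h4⟩ := rank_seq hmon hone hf hslow hr
      (Pr := fun W => ∃ L : IntermediateField k ℂ, FiniteDimensional k L ∧
        ∃ W' : Fin (n + 1) → MvPolynomial (Fin e) L, W = cmap W' ∧ ∀ i, aeval W' (F i) = 0)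
      (fun g hg hgs hgf => by
        filter_upwards [hap e g hg (fun t i => by
          obtain ⟨s, hs⟩ := hgf t
          rw [hs]
          exact hX s i) hgs] with M hM
        obtain ⟨L, hL, W, h1, -, h2⟩ := hM
        exact ⟨cmap W, ⟨L, hL, W, rfl, h1⟩, h2⟩) hδ
    subst hWW
    refine ⟨L, hL, W', hW', ?_, h3, h4⟩
    rw [pi_norm_le_iff_of_nonneg hδ.le]
    exact fun i => h2 i
  refine ⟨fun d f hf hX hslow => ?_, fun hF => ⟨?_, ?_⟩⟩
  · obtain ⟨M₀, hM₀⟩ := eventually_atTop.1 (hap d f hf hX hslow)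
    refine ⟨M₀, fun M hM => ?_⟩
    obtain ⟨L, hL, W, h1, h2, h3⟩ := hM₀ M hM
    refine ⟨L, hL, W, h1, h2, fun z hz => ?_⟩
    rw [pi_norm_le_iff_of_nonneg (by positivity)]
    exact fun i => h3 z hz i
  · intro d e f j z hf hX hslow hr δ hδ
    obtain ⟨L, hL, W, h1, h2, h3, h4⟩ := key d e f j z hf hX hslow hr (δ / 2) (by positivity)
    refine ⟨L, hL, fun m P hP hP0 => ?_⟩
    obtain ⟨x, hx, hx2, hx3⟩ := exists_near h1 (i0 := j 0) (fun h0 => h3 (by rw [h0, map_zero]))
      (H := rename j P) (fun h0 => hP0 (noRel_of_jm h3 h4 m P hP (by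
        rw [aeval_rename] at h0
        exact h0))) (δ := δ / 2) (by positivity)
    refine ⟨x, hx, ?_, ?_⟩
    · have h5 : x - f z = (x - pmap (cmap W) 0) + (pmap (cmap W) 0 - f z) := by abel
      rw [h5]
      refine (norm_add_le _ _).trans ?_
      linarith
    · rw [eval_rename] at hx3
      exact hx3
  · intro p hprime hp K _ _ w y hy d f j z hf hX hslow hr δ hδ
    obtain ⟨L, hL, W, h1, h2, h3, h4⟩ := key d w f j z hf hX hslow hr (δ / 2) (by positivity)
    have hWp : ∀ H ∈ p, aeval (cmap W) H = 0 := by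
      intro H hH
      apply MvPolynomial.funext
      intro t
      have h2 := MvPolynomial.comp_aeval_apply (f := cmap W)
        (aeval t : MvPolynomial (Fin w) ℂ →ₐ[ℂ] ℂ) H
      rw [map_zero]
      refine h2.trans ?_
      exact (hp H).1 hH _ fun i => pmap_mem (aeval_cmap (h1 i)) t
    refine ⟨L, hL, fun H hH hHp => ?_⟩
    obtain ⟨m, hm⟩ := hH
    obtain ⟨x, hx, hx2, hx3⟩ := exists_near h1 (i0 := j 0) (fun h0 => h3 (by rw [h0, map_zero]))
      (H := H) (fun h0 => hHp (hy.mem H ⟨m, hm⟩ (dom_jm hy hWp h3 h4 hm h0))) (δ := δ / 2)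
      (by positivity)
    refine ⟨x, hx, ?_, hx3⟩
    have h5 : x - f z = (x - pmap (cmap W) 0) + (pmap (cmap W) 0 - f z) := by abel
    rw [h5]
    refine (norm_add_le _ _).trans ?_
    linarith

end Pool.Agent.Results.MP_b62148_ag.SlowMapsDensity
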